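import Mathlib.Topology.Sheaves.Presheaf
import Mathlib.Data.Int.Star
import Mathlib.Algebra.Order.Ring.Star
import Mathlib.Algebra.Order.Star.Real
import Pool.Agent.MP_7f5071_gt.Spec

/-! The planar model used in the repair of a core: a staircase and a brick wall interpolation. -/

namespace Pool.Agent.MP_7f5071_gt.CR

open Filter Topology Set Metric

/-- Clamp to `[-a, a]`. -/
def cl (a u : ℝ) : ℝ := max (-a) (min a u)

theorem slope_of {f : ℝ → ℝ} (h : ∀ u v, u ≤ v → 0 ≤ f v - f u ∧ f v - f u ≤ v - u) (u v : ℝ) :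
    ∃ α ∈ Icc (0 : ℝ) 1, f u - f v = α * (u - v) := by
  rcases lt_trichotomy u v with huv | huv | huv
  · obtain ⟨h1, h2⟩ := h u v huv.le
    have hp : 0 < v - u := by linarith
    refine ⟨(f v - f u) / (v - u), ⟨div_nonneg h1 hp.le, (div_le_one hp).2 h2⟩, ?_⟩
    field_simp
    ring
  · exact ⟨0, ⟨le_rfl, zero_le_one⟩, by simp [huv]⟩
  · obtain ⟨h1, h2⟩ := h v u huv.le
    have hp : 0 < u - v := by linarith
    refine ⟨(f u - f v) / (u - v), ⟨div_nonneg h1 hp.le, (div_le_one hp).2 h2⟩, ?_⟩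
    field_simp

theorem cl_slope (a u v : ℝ) : ∃ α ∈ Icc (0 : ℝ) 1, cl a u - cl a v = α * (u - v) := by
  apply slope_of
  intro u v huv
  unfold cl
  constructor
  · simp only [max_def, min_def]; split_ifs <;> linarith
  · simp only [max_def, min_def]; split_ifs <;> linarith

theorem cl_lip (a u v : ℝ) : |cl a u - cl a v| ≤ |u - v| := by
  obtain ⟨α, ⟨h0, h1⟩, h⟩ := cl_slope a u v
  rw [h, abs_mul, abs_of_nonneg h0]
  nlinarith [abs_nonneg (u - v)]

theorem cl_of_abs_le {a u : ℝ} (h : |u| ≤ a) : cl a u = u := by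
  obtain ⟨h1, h2⟩ := abs_le.1 h
  unfold cl
  rw [min_eq_right h2, max_eq_right h1]

theorem cl_of_ge {a u : ℝ} (ha : 0 ≤ a) (h : a ≤ u) : cl a u = a := by
  unfold cl
  rw [min_eq_left h, max_eq_right (by linarith)]

theorem cl_of_le {a u : ℝ} (ha : 0 ≤ a) (h : u ≤ -a) : cl a u = -a := by
  unfold cl
  rw [min_eq_right (by linarith), max_eq_left h]

theorem abs_cl_le {a : ℝ} (ha : 0 ≤ a) (u : ℝ) : |cl a u| ≤ a := by
  unfold cl
  rw [abs_le]
  constructor
  · exact le_max_left _ _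
  · exact max_le (by linarith) (min_le_left _ _)

theorem round_cases {X : ℝ} {m : ℤ} (h : |X - m| ≤ 3 / 4) :
    round X = m ∨ (round X = m + 1 ∧ 1 / 2 ≤ X - m) ∨ (round X = m - 1 ∧ X - m ≤ -(1 / 2)) := by
  have h1 := abs_le.1 (abs_sub_round X)
  have h2 := abs_le.1 h
  have h3 : round X < m + 2 := by
    have : (round X : ℝ) < m + 2 := by linarith [h1.1, h2.2]
    exact_mod_cast this
  have h4 : m - 2 < round X := by
    have : (m : ℝ) - 2 < round X := by linarith [h1.2, h2.1]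
    exact_mod_cast this
  have h5 : round X = m ∨ round X = m + 1 ∨ round X = m - 1 := by omega
  rcases h5 with h5 | h5 | h5
  · exact Or.inl h5
  · refine Or.inr (Or.inl ⟨h5, ?_⟩)
    rw [h5] at h1; push_cast at h1; linarith [h1.1]
  · refine Or.inr (Or.inr ⟨h5, ?_⟩)
    rw [h5] at h1; push_cast at h1; linarith [h1.2]

/-- The staircase. -/
noncomputable def Y (th X : ℝ) : ℝ :=
  round X + (X - round X - cl th (X - round X)) / (1 - 2 * th)

theorem Y_eq {th : ℝ} (h0 : 0 < th) (h1 : th ≤ 1 / 4) {X : ℝ} {m : ℤ} (h : |X - m| ≤ 3 / 4) :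
    Y th X = m + (X - m - cl th (X - m)) / (1 - 2 * th) := by
  have h2 := abs_le.1 h
  have hd : (1 - 2 * th) ≠ 0 := by linarith
  unfold Y
  generalize hD : 1 - 2 * th = D at hd ⊢
  rcases round_cases h with h3 | ⟨h3, h4⟩ | ⟨h3, h4⟩
  · rw [h3]
  · rw [h3]; push_cast
    rw [cl_of_le h0.le (by linarith [h2.2]), cl_of_ge h0.le (by linarith)]
    field_simp; linarith
  · rw [h3]; push_cast
    rw [cl_of_ge h0.le (by linarith [h2.1]), cl_of_le h0.le (by linarith)]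
    field_simp; linarith

theorem near_round (X0 : ℝ) : ∀ᶠ X : ℝ in 𝓝 X0, |X - round X0| ≤ 3 / 4 := by
  have h1 := abs_le.1 (abs_sub_round X0)
  filter_upwards [Metric.closedBall_mem_nhds X0 (by norm_num : (0 : ℝ) < 1 / 4)] with X hX
  rw [mem_closedBall, Real.dist_eq, abs_le] at hX
  rw [abs_le]; constructor <;> linarith [h1.1, h1.2, hX.1, hX.2]

theorem Y_close {th : ℝ} (h0 : 0 < th) (h1 : th ≤ 1 / 4) (X : ℝ) : |Y th X - X| ≤ th := by
  have h2 := abs_le.1 (abs_sub_round X)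
  have hd : 0 < 1 - 2 * th := by linarith
  unfold Y
  set u := X - round X with hu
  have : (round X : ℝ) + (u - cl th u) / (1 - 2 * th) - X
      = (2 * th * u - cl th u) / (1 - 2 * th) := by
    field_simp; rw [hu]; ring
  rw [this, abs_div, abs_of_pos hd, div_le_iff₀ hd, abs_le]
  unfold cl
  simp only [max_def, min_def]
  split_ifs <;> constructor <;> nlinarith [h2.1, h2.2]

theorem Y_slope {th : ℝ} (h0 : 0 < th) (h1 : th ≤ 1 / 4) (X0 : ℝ) :
    ∀ᶠ X : ℝ in 𝓝 X0, ∃ α ∈ Icc (0 : ℝ) 1, Y th X - Y th X0 = α * (X - X0) / (1 - 2 * th) := by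
  filter_upwards [near_round X0] with X hX
  obtain ⟨α, ⟨ha0, ha1⟩, ha⟩ := cl_slope th (X - round X0) (X0 - round X0)
  refine ⟨1 - α, ⟨by linarith, by linarith⟩, ?_⟩
  rw [Y_eq h0 h1 hX, Y_eq h0 h1 (near_round X0).self_of_nhds]
  have hd : (1 - 2 * th) ≠ 0 := by linarith
  field_simp
  linarith

theorem Y_const {th : ℝ} (h0 : 0 < th) (h1 : th ≤ 1 / 4) {X0 : ℝ} (h : |X0 - round X0| < th) :
    ∀ᶠ X : ℝ in 𝓝 X0, Y th X = round X0 := by
  have hc : Continuous fun X : ℝ => |X - round X0| := by fun_prop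
  filter_upwards [near_round X0, hc.continuousAt.eventually (gt_mem_nhds h)] with X hX hX'
  rw [Y_eq h0 h1 hX, cl_of_abs_le hX'.le]
  simp

/-- The ramps; consecutive rows have disjoint transition zones. -/
noncomputable def q (th : ℝ) (j : ℤ) (u : ℝ) : ℝ :=
  1 / 2 + 2 / th * cl (th / 4) (u - if Even j then -(th / 2) else th / 2)

theorem q_mem {th : ℝ} (h0 : 0 < th) (j : ℤ) (u : ℝ) : q th j u ∈ Icc (0 : ℝ) 1 := by
  unfold q
  have h := abs_le.1 (abs_cl_le (by linarith : 0 ≤ th / 4)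
    (u - if Even j then -(th / 2) else th / 2))
  set x := cl (th / 4) (u - if Even j then -(th / 2) else th / 2)
  have h1 : 2 / th * x ≤ 2 / th * (th / 4) := by gcongr; exact h.2
  have h2 : 2 / th * (-(th / 4)) ≤ 2 / th * x := by gcongr; exact h.1
  have h3 : 2 / th * (th / 4) = 1 / 2 := by field_simp; norm_num
  constructor <;> nlinarith

theorem q_lip {th : ℝ} (h0 : 0 < th) (j : ℤ) (u v : ℝ) :
    |q th j u - q th j v| ≤ 2 / th * |u - v| := by
  unfold q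
  have h := cl_lip (th / 4) (u - if Even j then -(th / 2) else th / 2)
    (v - if Even j then -(th / 2) else th / 2)
  rw [sub_sub_sub_cancel_right] at h
  rw [add_sub_add_left_eq_sub, ← mul_sub, abs_mul, abs_of_pos (by positivity : 0 < 2 / th)]
  gcongr

theorem q_lo' {th : ℝ} (h0 : 0 < th) {j : ℤ} {u : ℝ}
    (h : u - (if Even j then -(th / 2) else th / 2) ≤ -(th / 4)) : q th j u = 0 := by
  unfold q
  rw [cl_of_le (by linarith) h]
  field_simp; norm_num

theorem q_hi' {th : ℝ} (h0 : 0 < th) {j : ℤ} {u : ℝ}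
    (h : th / 4 ≤ u - (if Even j then -(th / 2) else th / 2)) : q th j u = 1 := by
  unfold q
  rw [cl_of_ge (by linarith) h]
  field_simp; norm_num

theorem q_lo {th : ℝ} (h0 : 0 < th) (j : ℤ) {u : ℝ} (h : u ≤ -(3 * th / 4)) : q th j u = 0 := by
  apply q_lo' h0
  split_ifs <;> linarith

theorem q_hi {th : ℝ} (h0 : 0 < th) (j : ℤ) {u : ℝ} (h : 3 * th / 4 ≤ u) : q th j u = 1 := by
  apply q_hi' h0
  split_ifs <;> linarith

theorem q_far {th : ℝ} (h0 : 0 < th) {u0 : ℝ} (h : 3 * th / 4 < |u0|) :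
    ∃ κ : ℝ, (κ = 0 ∨ κ = 1) ∧ ∀ᶠ u in 𝓝 u0, ∀ j, q th j u = κ := by
  rcases lt_abs.1 h with h | h
  · refine ⟨1, Or.inr rfl, ?_⟩
    filter_upwards [lt_mem_nhds h] with u hu j using q_hi h0 j hu.le
  · refine ⟨0, Or.inl rfl, ?_⟩
    have h' : u0 < -(3 * th / 4) := by linarith
    filter_upwards [gt_mem_nhds h'] with u hu j using q_lo h0 j hu.le

theorem q_alt {th : ℝ} (h0 : 0 < th) (j : ℤ) (u0 : ℝ) :
    (∃ κ : ℝ, ∀ᶠ u in 𝓝 u0, q th j u = κ) ∨ ∃ κ : ℝ, ∀ᶠ u in 𝓝 u0, q th (j - 1) u = κ := by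
  have key1 : ∀ i : ℤ, Even i → -(th / 4) < u0 → ∃ κ : ℝ, ∀ᶠ u in 𝓝 u0, q th i u = κ := by
    intro i hi hu
    refine ⟨1, ?_⟩
    filter_upwards [lt_mem_nhds hu] with u hu
    apply q_hi' h0
    rw [if_pos hi]; linarith
  have key2 : ∀ i : ℤ, ¬ Even i → u0 < th / 4 → ∃ κ : ℝ, ∀ᶠ u in 𝓝 u0, q th i u = κ := by
    intro i hi hu
    refine ⟨0, ?_⟩
    filter_upwards [gt_mem_nhds hu] with u hu
    apply q_lo' h0
    rw [if_neg hi]; linarith
  have hj : Even (j - 1) ↔ ¬ Even j := Int.even_sub_one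
  by_cases he : Even j
  · by_cases hu : -(th / 4) < u0
    · exact Or.inl (key1 j he hu)
    · exact Or.inr (key2 _ (fun h => hj.1 h he) (by linarith [not_lt.1 hu]))
  · by_cases hu : -(th / 4) < u0
    · exact Or.inr (key1 _ (hj.2 he) hu)
    · exact Or.inl (key2 _ he (by linarith [not_lt.1 hu]))

section Interp

variable {E : Type*} [NormedAddCommGroup E] [NormedSpace ℝ E]

/-- The point with parameter `t` on the segment from `a` to `b`. -/
def seg (t : ℝ) (a b : E) : E := a + t • (b - a)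

theorem seg_zero (a b : E) : seg 0 a b = a := by simp [seg]

theorem seg_one (a b : E) : seg 1 a b = b := by simp [seg]

theorem seg_mem {C : Set E} (hC : Convex ℝ C) {t : ℝ} (ht : t ∈ Icc (0 : ℝ) 1) {a b : E}
    (ha : a ∈ C) (hb : b ∈ C) : seg t a b ∈ C := hC.add_smul_sub_mem ha hb ht

/-- Interpolation of a sequence. -/
noncomputable def I (th : ℝ) (j : ℤ) (f : ℤ → E) (X : ℝ) : E :=
  seg (q th j (X - round X)) (f (round X - 1)) (f (round X))

theorem I_eq {th : ℝ} (h0 : 0 < th) (h1 : th ≤ 1 / 4) (j : ℤ) (f : ℤ → E) {X : ℝ} {m : ℤ}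
    (h : |X - m| ≤ 3 / 4) : I th j f X = seg (q th j (X - m)) (f (m - 1)) (f m) := by
  have h2 := abs_le.1 h
  unfold I
  rcases round_cases h with h3 | ⟨h3, h4⟩ | ⟨h3, h4⟩
  · rw [h3]
  · rw [h3]; push_cast
    rw [q_lo h0 j (by linarith [h2.2]), q_hi h0 j (by linarith), seg_zero, seg_one]
    simp
  · rw [h3]; push_cast
    rw [q_hi h0 j (by linarith [h2.1]), q_lo h0 j (by linarith), seg_zero, seg_one]

/-- The brick wall interpolation. -/
noncomputable def F (th : ℝ) (e : ℤ → ℤ → E) (X : R2) : E :=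
  I th 0 (fun j => I th j (fun k => e k j) X.1) X.2

theorem F_eq {th : ℝ} (h0 : 0 < th) (h1 : th ≤ 1 / 4) (e : ℤ → ℤ → E) {X : R2} {k l : ℤ}
    (hk : |X.1 - k| ≤ 3 / 4) (hl : |X.2 - l| ≤ 3 / 4) :
    F th e X = seg (q th 0 (X.2 - l))
      (seg (q th (l - 1) (X.1 - k)) (e (k - 1) (l - 1)) (e k (l - 1)))
      (seg (q th l (X.1 - k)) (e (k - 1) l) (e k l)) := by
  unfold F
  rw [I_eq h0 h1 0 _ hl, I_eq h0 h1 _ _ hk, I_eq h0 h1 _ _ hk]

theorem F_mem {th : ℝ} (h0 : 0 < th) (h1 : th ≤ 1 / 4) (e : ℤ → ℤ → E) (X : R2) {C : Set E}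
    (hC : Convex ℝ C)
    (h : ∀ k l : ℤ, |X.1 - k| ≤ 3 / 2 → |X.2 - l| ≤ 3 / 2 → e k l ∈ C) : F th e X ∈ C := by
  have a1 := abs_le.1 (abs_sub_round X.1)
  have a2 := abs_le.1 (abs_sub_round X.2)
  rw [F_eq h0 h1 e (near_round X.1).self_of_nhds (near_round X.2).self_of_nhds]
  refine seg_mem hC (q_mem h0 _ _) (seg_mem hC (q_mem h0 _ _) ?_ ?_)
    (seg_mem hC (q_mem h0 _ _) ?_ ?_) <;> apply h <;> push_cast <;> rw [abs_le] <;>
    constructor <;> linarith [a1.1, a1.2, a2.1, a2.2]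

theorem near2 (X0 : R2) :
    ∀ᶠ X : R2 in 𝓝 X0, |X.1 - round X0.1| ≤ 3 / 4 ∧ |X.2 - round X0.2| ≤ 3 / 4 :=
  (continuous_fst.continuousAt.eventually (near_round X0.1)).and
    (continuous_snd.continuousAt.eventually (near_round X0.2))

theorem seg_sub (t t' : ℝ) (a b a' b' : E) :
    seg t a b - seg t' a' b' = (1 - t) • (a - a') + t • (b - b') + (t - t') • (b' - a') := by
  unfold seg
  module

theorem norm_seg_sub {t t' : ℝ} (ht : t ∈ Icc (0 : ℝ) 1) {a b a' b' : E} {u : ℝ}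
    (ha : ‖a - a'‖ ≤ u) (hb : ‖b - b'‖ ≤ u) :
    ‖seg t a b - seg t' a' b'‖ ≤ u + |t - t'| * ‖b' - a'‖ := by
  rw [seg_sub]
  refine (norm_add_le _ _).trans (add_le_add ((norm_add_le _ _).trans ?_) ?_)
  · rw [norm_smul, norm_smul, Real.norm_of_nonneg ht.1, Real.norm_of_nonneg (by linarith [ht.2])]
    have h1 : (1 - t) * ‖a - a'‖ ≤ (1 - t) * u := mul_le_mul_of_nonneg_left ha (by linarith [ht.2])
    have h2 : t * ‖b - b'‖ ≤ t * u := mul_le_mul_of_nonneg_left hb ht.1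
    linarith
  · rw [norm_smul, Real.norm_eq_abs]

theorem F_lip {th : ℝ} (h0 : 0 < th) (h1 : th ≤ 1 / 4) (e : ℤ → ℤ → E) {D : ℝ}
    (hD : ∀ k l k' l' : ℤ, |k - k'| ≤ 1 → |l - l'| ≤ 1 → ‖e k l - e k' l'‖ ≤ D) (X0 : R2) :
    ∀ᶠ X : R2 in 𝓝 X0, ‖F th e X - F th e X0‖ ≤ 6 * D / th * ‖X - X0‖ := by
  have hD0 : 0 ≤ D := (norm_nonneg _).trans (hD 0 0 0 0 (by simp) (by simp))
  filter_upwards [near2 X0] with X hX
  have hX0 := (near2 X0).self_of_nhds
  rw [F_eq h0 h1 e hX.1 hX.2, F_eq h0 h1 e hX0.1 hX0.2]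
  set k := round X0.1
  set l := round X0.2
  have n1 : |X.1 - X0.1| ≤ ‖X - X0‖ := norm_fst_le (X - X0)
  have n2 : |X.2 - X0.2| ≤ ‖X - X0‖ := norm_snd_le (X - X0)
  have hq1 : ∀ j, |q th j (X.1 - k) - q th j (X0.1 - k)| ≤ 2 / th * ‖X - X0‖ := by
    intro j
    refine (q_lip h0 j _ _).trans ?_
    rw [sub_sub_sub_cancel_right]; gcongr
  have hq2 : |q th 0 (X.2 - l) - q th 0 (X0.2 - l)| ≤ 2 / th * ‖X - X0‖ := by
    refine (q_lip h0 0 _ _).trans ?_
    rw [sub_sub_sub_cancel_right]; gcongr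
  have row : ∀ j, ‖seg (q th j (X.1 - k)) (e (k - 1) j) (e k j)
      - seg (q th j (X0.1 - k)) (e (k - 1) j) (e k j)‖ ≤ 2 / th * ‖X - X0‖ * D := by
    intro j
    refine (norm_seg_sub (u := 0) (q_mem h0 _ _) (by simp) (by simp)).trans ?_
    rw [zero_add]
    have := hD k j (k - 1) j (by simp) (by simp)
    gcongr
    exact hq1 j
  have col : ‖seg (q th l (X0.1 - k)) (e (k - 1) l) (e k l)
      - seg (q th (l - 1) (X0.1 - k)) (e (k - 1) (l - 1)) (e k (l - 1))‖ ≤ 2 * D := by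
    refine (norm_seg_sub (u := D) (q_mem h0 _ _) (hD _ _ _ _ (by simp) (by simp))
      (hD _ _ _ _ (by simp) (by simp))).trans ?_
    have b1 := q_mem h0 l (X0.1 - k)
    have b2 := q_mem h0 (l - 1) (X0.1 - k)
    have b3 : |q th l (X0.1 - k) - q th (l - 1) (X0.1 - k)| ≤ 1 := by
      rw [abs_le]; constructor <;> linarith [b1.1, b1.2, b2.1, b2.2]
    have b4 := hD k (l - 1) (k - 1) (l - 1) (by simp) (by simp)
    have : |q th l (X0.1 - k) - q th (l - 1) (X0.1 - k)| * ‖e k (l - 1) - e (k - 1) (l - 1)‖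
        ≤ 1 * D := by gcongr
    linarith
  refine (norm_seg_sub (q_mem h0 _ _) (row _) (row _)).trans ?_
  have : |q th 0 (X.2 - l) - q th 0 (X0.2 - l)| * ‖seg (q th l (X0.1 - k)) (e (k - 1) l) (e k l)
      - seg (q th (l - 1) (X0.1 - k)) (e (k - 1) (l - 1)) (e k (l - 1))‖
      ≤ 2 / th * ‖X - X0‖ * (2 * D) := by gcongr
  have e1 : 6 * D / th * ‖X - X0‖ = 2 / th * ‖X - X0‖ * D + 2 / th * ‖X - X0‖ * (2 * D) := by
    ring
  linarith

theorem model_planar {th : ℝ} (h0 : 0 < th) (h1 : th ≤ 1 / 4) (e : ℤ → ℤ → E) (b1 b2 : E)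
    (X0 : R2) : ∃ c a a' : E, ∀ᶠ X : R2 in 𝓝 X0, ∃ s t : ℝ,
      Y th X.1 • b1 + Y th X.2 • b2 + F th e X = c + s • a + t • a' := by
  set k := round X0.1 with hk
  set l := round X0.2 with hl
  have c1 : ContinuousAt (fun X : R2 => X.1 - k) X0 := by fun_prop
  have c2 : ContinuousAt (fun X : R2 => X.2 - l) X0 := by fun_prop
  have d1 : ContinuousAt (fun X : R2 => X.1) X0 := continuous_fst.continuousAt
  have d2 : ContinuousAt (fun X : R2 => X.2) X0 := continuous_snd.continuousAt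
  by_cases hu : |X0.1 - k| < th
  · have y1 := d1.eventually (Y_const h0 h1 hu)
    by_cases hv : |X0.2 - l| < th
    · have y2 := d2.eventually (Y_const h0 h1 hv)
      rcases q_alt h0 l (X0.1 - k) with ⟨κ, hκ⟩ | ⟨κ, hκ⟩
      · refine ⟨(k : ℝ) • b1 + (l : ℝ) • b2 + seg κ (e (k - 1) l) (e k l),
          e (k - 1) (l - 1) - seg κ (e (k - 1) l) (e k l), e k (l - 1) - e (k - 1) (l - 1), ?_⟩
        filter_upwards [near2 X0, y1, y2, c1.eventually hκ] with X hX z1 z2 z3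
        refine ⟨1 - q th 0 (X.2 - l), (1 - q th 0 (X.2 - l)) * q th (l - 1) (X.1 - k), ?_⟩
        rw [F_eq h0 h1 e hX.1 hX.2, z1, z2, z3]
        unfold seg
        module
      · refine ⟨(k : ℝ) • b1 + (l : ℝ) • b2 + seg κ (e (k - 1) (l - 1)) (e k (l - 1)),
          e (k - 1) l - seg κ (e (k - 1) (l - 1)) (e k (l - 1)), e k l - e (k - 1) l, ?_⟩
        filter_upwards [near2 X0, y1, y2, c1.eventually hκ] with X hX z1 z2 z3
        refine ⟨q th 0 (X.2 - l), q th 0 (X.2 - l) * q th l (X.1 - k), ?_⟩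
        rw [F_eq h0 h1 e hX.1 hX.2, z1, z2, z3]
        unfold seg
        module
    · obtain ⟨κ, hκ0, hκ⟩ := q_far h0 (u0 := X0.2 - l) (by linarith [not_lt.1 hv])
      rcases hκ0 with rfl | rfl
      · refine ⟨(k : ℝ) • b1 + e (k - 1) (l - 1), b2, e k (l - 1) - e (k - 1) (l - 1), ?_⟩
        filter_upwards [near2 X0, y1, c2.eventually hκ] with X hX z1 z3
        refine ⟨Y th X.2, q th (l - 1) (X.1 - k), ?_⟩
        rw [F_eq h0 h1 e hX.1 hX.2, z1, z3, seg_zero]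
        unfold seg
        module
      · refine ⟨(k : ℝ) • b1 + e (k - 1) l, b2, e k l - e (k - 1) l, ?_⟩
        filter_upwards [near2 X0, y1, c2.eventually hκ] with X hX z1 z3
        refine ⟨Y th X.2, q th l (X.1 - k), ?_⟩
        rw [F_eq h0 h1 e hX.1 hX.2, z1, z3, seg_one]
        unfold seg
        module
  · obtain ⟨κ, -, hκ⟩ := q_far h0 (u0 := X0.1 - k) (by linarith [not_lt.1 hu])
    by_cases hv : |X0.2 - l| < th
    · have y2 := d2.eventually (Y_const h0 h1 hv)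
      refine ⟨(l : ℝ) • b2 + seg κ (e (k - 1) (l - 1)) (e k (l - 1)), b1,
        seg κ (e (k - 1) l) (e k l) - seg κ (e (k - 1) (l - 1)) (e k (l - 1)), ?_⟩
      filter_upwards [near2 X0, y2, c1.eventually hκ] with X hX z2 z3
      refine ⟨Y th X.1, q th 0 (X.2 - l), ?_⟩
      rw [F_eq h0 h1 e hX.1 hX.2, z2, z3, z3]
      unfold seg
      module
    · obtain ⟨κ', -, hκ'⟩ := q_far h0 (u0 := X0.2 - l) (by linarith [not_lt.1 hv])
      refine ⟨seg κ' (seg κ (e (k - 1) (l - 1)) (e k (l - 1))) (seg κ (e (k - 1) l) (e k l)),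
        b1, b2, ?_⟩
      filter_upwards [near2 X0, c1.eventually hκ, c2.eventually hκ'] with X hX z1 z2
      refine ⟨Y th X.1, Y th X.2, ?_⟩
      rw [F_eq h0 h1 e hX.1 hX.2, z2, z1, z1]
      module

end Interp

end Pool.Agent.MP_7f5071_gt.CR
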