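import Pool.Agent.MP_7f5071_gt.BL
import Pool.Agent.MP_7f5071_gt.CR.Model

/-! The anchors of a patch and the linear part `b` used in the repair of a core. -/

namespace Pool.Agent.MP_7f5071_gt.CR

open Filter Topology Set Metric

theorem cm_fst (s : ℝ) (z : R2) : (clamp s z).1 = cl s z.1 := rfl

theorem cm_snd (s : ℝ) (z : R2) : (clamp s z).2 = cl s z.2 := rfl

theorem cm_lip (s : ℝ) (z z' : R2) : ‖clamp s z - clamp s z'‖ ≤ ‖z - z'‖ :=
  norm_le_of_abs ((cl_lip s z.1 z'.1).trans (abs_fst_le_norm (z - z')))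
    ((cl_lip s z.2 z'.2).trans (abs_snd_le_norm (z - z')))

theorem cm_of_le {s : ℝ} {z : R2} (h : ‖z‖ ≤ s) : clamp s z = z :=
  Prod.ext (cl_of_abs_le ((abs_fst_le_norm z).trans h))
    (cl_of_abs_le ((abs_snd_le_norm z).trans h))

theorem norm_cm_le {s : ℝ} (hs : 0 ≤ s) (z : R2) : ‖clamp s z‖ ≤ s :=
  norm_le_of_abs (abs_cl_le hs _) (abs_cl_le hs _)

variable {X : Type*} [MetricSpace X] {N : ℕ}

/-- The hypotheses. -/
structure Setup (H G : X → V N) (P : Patch X N) (Λ γ δ r : ℝ) (T : V N →L[ℝ] V N) : Prop where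
  geo : Geodesic X
  ok : P.Ok H Λ γ δ
  γpos : 0 < γ
  γle : γ ≤ 1 / 1000
  Tle : ‖T‖ ≤ 1
  rpos : 0 < r
  loc : ∀ y ∈ P.In, ∀ y' ∈ P.In, dist y y' ≤ r → ‖G y - G y' - T (H y - H y')‖ ≤ γ * dist y y'

/-- The clamped chart. -/
def c2 (P : Patch X N) (y : X) : R2 := clamp P.s (P.σ y)

/-- The remainder with respect to a linear map. -/
def R (G : X → V N) (P : Patch X N) (b : R2 →L[ℝ] V N) (y : X) : V N := G y - b (c2 P y)

/-- The open inner core. -/
def U (P : Patch X N) : Set X := {y | P.ρ y < 1 + 7 * P.c / 10}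

namespace Setup

variable {H G : X → V N} {P : Patch X N} {Λ γ δ r : ℝ} {T : V N →L[ℝ] V N}
  (S : Setup H G P Λ γ δ r T)

include S

theorem U_open : IsOpen (U P) := isOpen_lt S.ok.ρlip.continuous continuous_const

theorem U_Rm {y : X} (h : y ∈ U P) : y ∈ P.Rm := by
  have h1 : P.ρ y < 1 + 7 * P.c / 10 := h
  have := S.ok.tlo
  have := S.ok.cpos
  show P.ρ y ≤ P.t
  linarith

theorem ρ_le (y w : X) : P.ρ w ≤ P.ρ y + 2 / P.s * dist w y := by
  have := abs_le.1 (S.ok.ρlip.abs_sub_le w y)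
  linarith [this.2]

theorem mem_U {y y' w : X} (h : P.ρ y + 2 / P.s * dist y y' < 1 + 7 * P.c / 10)
    (hw : dist w y + dist w y' = dist y y') : w ∈ U P := by
  have h1 := S.ρ_le y w
  have h2 : dist w y ≤ dist y y' := by linarith [dist_nonneg (x := w) (y := y')]
  have h3 : 2 / P.s * dist w y ≤ 2 / P.s * dist y y' := by
    have := S.ok.spos
    gcongr
  show P.ρ w < 1 + 7 * P.c / 10
  linarith

theorem R_plip {z : X} (hz : z ∈ U P) : PLip γ (R G P (T.comp P.A)) z := by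
  filter_upwards [S.U_open.mem_nhds hz, closedBall_mem_nhds z S.rpos] with y hy hr
  have hy' : P.ρ y < 1 + 7 * P.c / 10 := hy
  have hz' : P.ρ z < 1 + 7 * P.c / 10 := hz
  have h := S.loc y hy'.le z hz'.le hr
  rw [S.ok.form y (S.U_Rm hy), S.ok.form z (S.U_Rm hz)] at h
  have e : R G P (T.comp P.A) y - R G P (T.comp P.A) z = G y - G z -
      T (P.c0 + P.A (clamp P.s (P.σ y)) - (P.c0 + P.A (clamp P.s (P.σ z)))) := by
    simp only [R, c2, ContinuousLinearMap.comp_apply, map_sub, map_add]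
    abel
  rw [e]; exact h

theorem c2_plip {z : X} (hz : z ∈ U P) : PLip 2 (c2 P) z := by
  filter_upwards [S.ok.σlip z (S.U_Rm hz)] with y hy using (cm_lip _ _ _).trans hy

theorem R_geo {y y' : X} (h : P.ρ y + 2 / P.s * dist y y' < 1 + 7 * P.c / 10) :
    ‖R G P (T.comp P.A) y - R G P (T.comp P.A) y'‖ ≤ γ * dist y y' :=
  S.geo.norm_sub_le fun _ hw => S.R_plip (S.mem_U h hw)

theorem σ_geo {y y' : X} (h : P.ρ y + 2 / P.s * dist y y' < 1 + 7 * P.c / 10) :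
    ‖P.σ y - P.σ y'‖ ≤ 2 * dist y y' :=
  S.geo.norm_sub_le fun _ hw => S.ok.σlip _ (S.U_Rm (S.mem_U h hw))

theorem anc_U {w : R2} (hw : ‖w‖ ≤ P.s) : P.anc w ∈ U P := by
  have h1 := (S.ok.ancσ w hw).1
  have := S.ok.cpos
  show P.ρ _ < 1 + 7 * P.c / 10
  linarith

theorem from_anc {w : R2} (hw : ‖w‖ ≤ P.s) {y : X} (hy : dist (P.anc w) y ≤ P.c * P.s / 4) :
    P.ρ (P.anc w) + 2 / P.s * dist (P.anc w) y < 1 + 7 * P.c / 10 := by
  have h1 := (S.ok.ancσ w hw).1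
  have hc := S.ok.cpos
  have hs := S.ok.spos
  have h2 : 2 / P.s * dist (P.anc w) y ≤ 2 / P.s * (P.c * P.s / 4) := by gcongr
  have h3 : 2 / P.s * (P.c * P.s / 4) = P.c / 2 := by field_simp; norm_num
  linarith

theorem anc_c2 {w : R2} (hw : ‖w‖ ≤ P.s) : ‖c2 P (P.anc w) - w‖ ≤ γ * P.c * P.s := by
  have h := cm_lip P.s (P.σ (P.anc w)) w
  rw [cm_of_le hw] at h
  exact h.trans (S.ok.ancσ w hw).2

theorem anc_R {w w' : R2} (hw : ‖w‖ ≤ P.s) (hw' : ‖w'‖ ≤ P.s)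
    (h : ‖w - w'‖ ≤ P.c * P.s / 100) :
    ‖R G P (T.comp P.A) (P.anc w) - R G P (T.comp P.A) (P.anc w')‖
      ≤ γ * (6 * ‖w - w'‖ + γ * P.c * P.s) := by
  have h1 := S.ok.ancd w w' hw hw'
  have hcs : 0 < P.c * P.s := mul_pos S.ok.cpos S.ok.spos
  have h2 : γ * (P.c * P.s) ≤ 1 / 1000 * (P.c * P.s) := by gcongr; exact S.γle
  refine (S.R_geo (S.from_anc hw (by nlinarith))).trans ?_
  have := S.γpos
  gcongr

theorem chain {w w' : R2} (hw : ‖w‖ ≤ P.s) (hw' : ‖w'‖ ≤ P.s) :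
    ‖R G P (T.comp P.A) (P.anc w) - R G P (T.comp P.A) (P.anc w')‖ ≤ 13 * γ * P.s := by
  have hc := S.ok.cpos
  have hc' := S.ok.cle
  have hs := S.ok.spos
  have hγ := S.γpos
  obtain ⟨n, hn1, hn2⟩ : ∃ n : ℕ, 200 / P.c ≤ n ∧ (n : ℝ) ≤ 200 / P.c + 1 :=
    ⟨⌈200 / P.c⌉₊, Nat.le_ceil _, (Nat.ceil_lt_add_one (by positivity)).le⟩
  have hn0 : (0 : ℝ) < n := lt_of_lt_of_le (by positivity) hn1
  have hn3 : 200 ≤ n * P.c := by rwa [div_le_iff₀ hc] at hn1
  have hn4 : n * P.c ≤ 201 := by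
    have : (n : ℝ) * P.c ≤ (200 / P.c + 1) * P.c := by gcongr
    have e : (200 / P.c + 1) * P.c = 200 + P.c := by field_simp
    linarith
  have hww : ‖w' - w‖ ≤ 2 * P.s := (norm_sub_le _ _).trans (by linarith)
  let p : ℕ → R2 := fun i => seg ((i : ℝ) / n) w w'
  have hp : ∀ i, i ≤ n → ‖p i‖ ≤ P.s := by
    intro i hi
    have : p i ∈ closedBall (0 : R2) P.s :=
      seg_mem (convex_closedBall _ _) ⟨by positivity, (div_le_one hn0).2 (by exact_mod_cast hi)⟩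
        (by simpa using hw) (by simpa using hw')
    simpa using this
  have hstep : ∀ i, ‖p i - p (i + 1)‖ ≤ 2 * P.s / n := by
    intro i
    have e : p i - p (i + 1) = (-(1 / n) : ℝ) • (w' - w) := by
      simp only [p, seg]
      push_cast
      rw [add_div]
      module
    rw [e, norm_smul, norm_neg, Real.norm_of_nonneg (by positivity)]
    calc 1 / (n : ℝ) * ‖w' - w‖ ≤ 1 / (n : ℝ) * (2 * P.s) := by gcongr
      _ = 2 * P.s / n := by ring
  have hsm : 2 * P.s / n ≤ P.c * P.s / 100 := by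
    rw [div_le_div_iff₀ hn0 (by norm_num)]
    nlinarith
  have key := dist_le_range_sum_of_dist_le (f := fun i => R G P (T.comp P.A) (P.anc (p i))) n
    (d := fun _ => γ * (6 * (2 * P.s / n) + γ * P.c * P.s)) (fun {i} hi => by
      rw [dist_eq_norm]
      refine (S.anc_R (hp i hi.le) (hp (i + 1) hi) ((hstep i).trans hsm)).trans ?_
      have := hstep i
      gcongr)
  have p0 : p 0 = w := by simp [p, seg]
  have pn : p n = w' := by simp only [p]; rw [div_self hn0.ne', seg_one]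
  simp only [p0, pn, Finset.sum_const, Finset.card_range, nsmul_eq_mul, dist_eq_norm] at key
  refine key.trans ?_
  have e : (n : ℝ) * (γ * (6 * (2 * P.s / n) + γ * P.c * P.s))
      = γ * P.s * (12 + γ * (n * P.c)) := by field_simp; ring
  rw [e]
  have h5 : γ * (n * P.c) ≤ 1 / 1000 * 201 := by gcongr; exact S.γle
  have h6 : 0 < γ * P.s := by positivity
  nlinarith

theorem B_le (v : R2) : ‖(T.comp P.A) v‖ ≤ 5 * ‖v‖ := by
  have h1 := T.le_opNorm (P.A v)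
  have h2 := S.ok.Abd v
  have h3 : ‖T‖ * ‖P.A v‖ ≤ 1 * ‖P.A v‖ := by gcongr; exact S.Tle
  simp only [ContinuousLinearMap.comp_apply]
  linarith

theorem col (u : R2) (hu : ‖u‖ ≤ 1) :
    ‖(2 * P.s)⁻¹ • (G (P.anc (P.s • u)) - G (P.anc (-(P.s • u)))) - (T.comp P.A) u‖ ≤ 7 * γ := by
  have hs := S.ok.spos
  have hc := S.ok.cpos
  have hc' := S.ok.cle
  have hγ := S.γpos
  have h1 : ‖P.s • u‖ ≤ P.s := by
    rw [norm_smul, Real.norm_of_nonneg hs.le]; nlinarith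
  have h2 : ‖-(P.s • u)‖ ≤ P.s := by rwa [norm_neg]
  have h3 := S.chain h1 h2
  have h4 := (S.B_le _).trans (mul_le_mul_of_nonneg_left (S.anc_c2 h1) (by norm_num))
  have h5 := (S.B_le _).trans (mul_le_mul_of_nonneg_left (S.anc_c2 h2) (by norm_num))
  set B := T.comp P.A
  have e : (2 * P.s)⁻¹ • (G (P.anc (P.s • u)) - G (P.anc (-(P.s • u)))) - B u =
      (2 * P.s)⁻¹ • ((R G P B (P.anc (P.s • u)) - R G P B (P.anc (-(P.s • u)))) +
        B (c2 P (P.anc (P.s • u)) - P.s • u) - B (c2 P (P.anc (-(P.s • u))) - -(P.s • u))) := by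
    have e1 : B u = (2 * P.s)⁻¹ • ((2 * P.s) • B u) := by
      rw [smul_smul, inv_mul_cancel₀ (by positivity), one_smul]
    rw [e1, ← smul_sub]
    congr 1
    simp only [R, map_sub, map_neg, map_smul]
    module
  rw [e, norm_smul, Real.norm_of_nonneg (by positivity), inv_mul_le_iff₀ (by positivity)]
  refine (norm_sub_le _ _).trans ?_
  have h6 := norm_add_le (R G P B (P.anc (P.s • u)) - R G P B (P.anc (-(P.s • u))))
    (B (c2 P (P.anc (P.s • u)) - P.s • u))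
  have h7 : γ * P.c * P.s ≤ γ * (1 / 10) * P.s := by gcongr
  linarith

theorem exists_b : ∃ b : R2 →L[ℝ] V N, (∀ v, ‖b v - (T.comp P.A) v‖ ≤ 14 * γ * ‖v‖) ∧
    ∀ W : Submodule ℝ (V N), (∀ y ∈ P.Rm, ∀ y' ∈ P.Rm, G y - G y' ∈ W) → ∀ v, b v ∈ W := by
  have hs := S.ok.spos
  let g : R2 → V N := fun u => (2 * P.s)⁻¹ • (G (P.anc (P.s • u)) - G (P.anc (-(P.s • u))))
  have n1 : ‖((1, 0) : R2)‖ ≤ 1 := norm_le_of_abs (by simp) (by simp)
  have n2 : ‖((0, 1) : R2)‖ ≤ 1 := norm_le_of_abs (by simp) (by simp)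
  refine ⟨(ContinuousLinearMap.fst ℝ ℝ ℝ).smulRight (g (1, 0)) +
    (ContinuousLinearMap.snd ℝ ℝ ℝ).smulRight (g (0, 1)), fun v => ?_, fun W hW v => ?_⟩
  · have h1 := S.col _ n1
    have h2 := S.col _ n2
    set B := T.comp P.A
    have ev : B v = v.1 • B (1, 0) + v.2 • B (0, 1) := by
      rw [← map_smul, ← map_smul, ← map_add]
      congr 1
      ext <;> simp
    have e : ((ContinuousLinearMap.fst ℝ ℝ ℝ).smulRight (g (1, 0)) +
        (ContinuousLinearMap.snd ℝ ℝ ℝ).smulRight (g (0, 1))) v - B v =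
        v.1 • (g (1, 0) - B (1, 0)) + v.2 • (g (0, 1) - B (0, 1)) := by
      rw [ev]
      simp only [add_apply, ContinuousLinearMap.smulRight_apply,
        ContinuousLinearMap.coe_fst', ContinuousLinearMap.coe_snd']
      module
    rw [e]
    refine (norm_add_le _ _).trans ?_
    rw [norm_smul, norm_smul]
    have a1 : ‖v.1‖ * ‖g (1, 0) - B (1, 0)‖ ≤ ‖v‖ * (7 * γ) :=
      mul_le_mul (norm_fst_le v) h1 (norm_nonneg _) (norm_nonneg _)
    have a2 : ‖v.2‖ * ‖g (0, 1) - B (0, 1)‖ ≤ ‖v‖ * (7 * γ) :=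
      mul_le_mul (norm_snd_le v) h2 (norm_nonneg _) (norm_nonneg _)
    linarith
  · have hg : ∀ u : R2, ‖u‖ ≤ 1 → g u ∈ W := by
      intro u hu
      have h1 : ‖P.s • u‖ ≤ P.s := by
        rw [norm_smul, Real.norm_of_nonneg hs.le]; nlinarith
      have h2 : ‖-(P.s • u)‖ ≤ P.s := by rwa [norm_neg]
      exact W.smul_mem _ (hW _ (S.U_Rm (S.anc_U h1)) _ (S.U_Rm (S.anc_U h2)))
    simp only [add_apply, ContinuousLinearMap.smulRight_apply]
    exact W.add_mem (W.smul_mem _ (hg _ n1)) (W.smul_mem _ (hg _ n2))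

variable {b : R2 →L[ℝ] V N} (hb : ∀ v, ‖b v - (T.comp P.A) v‖ ≤ 14 * γ * ‖v‖)

include hb

theorem b_le (v : R2) : ‖b v‖ ≤ 6 * ‖v‖ := by
  have h1 := hb v
  have h2 := S.B_le v
  have h3 := norm_sub_norm_le (b v) ((T.comp P.A) v)
  have h4 : 14 * γ * ‖v‖ ≤ 14 * (1 / 1000) * ‖v‖ := by gcongr; exact S.γle
  nlinarith [norm_nonneg v]

omit S [MetricSpace X] in
theorem Rb_sub (y y' : X) : ‖R G P b y - R G P b y'‖ ≤
    ‖R G P (T.comp P.A) y - R G P (T.comp P.A) y'‖ + 14 * γ * ‖c2 P y - c2 P y'‖ := by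
  have h := hb (c2 P y - c2 P y')
  set B := T.comp P.A
  have e : R G P b y - R G P b y' = (R G P B y - R G P B y') -
      (b (c2 P y - c2 P y') - B (c2 P y - c2 P y')) := by
    simp only [R, map_sub]; abel
  rw [e]
  exact (norm_sub_le _ _).trans (by linarith)

theorem Rb_plip {z : X} (hz : z ∈ U P) : PLip (29 * γ) (R G P b) z := by
  filter_upwards [S.R_plip hz, S.c2_plip hz] with y h1 h2
  refine (Rb_sub hb y z).trans ?_
  have := S.γpos
  have h3 : 14 * γ * ‖c2 P y - c2 P z‖ ≤ 14 * γ * (2 * dist y z) := by gcongr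
  linarith

theorem Rb_anc {w w' : R2} (hw : ‖w‖ ≤ P.s) (hw' : ‖w'‖ ≤ P.s)
    (h : ‖w - w'‖ ≤ P.c * P.s / 500) :
    ‖R G P b (P.anc w) - R G P b (P.anc w')‖ ≤ γ * P.c * P.s / 10 := by
  have hcs : 0 < P.c * P.s := mul_pos S.ok.cpos S.ok.spos
  have hγ := S.γpos
  have h1 := S.anc_R hw hw' (by linarith)
  have h2 := S.anc_c2 hw
  have h3 := S.anc_c2 hw'
  have h4 : ‖c2 P (P.anc w) - c2 P (P.anc w')‖ ≤ ‖w - w'‖ + 2 * (γ * P.c * P.s) := by
    have e : c2 P (P.anc w) - c2 P (P.anc w') =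
        (w - w') + (c2 P (P.anc w) - w) - (c2 P (P.anc w') - w') := by abel
    rw [e]
    refine (norm_sub_le _ _).trans ?_
    linarith [norm_add_le (w - w') (c2 P (P.anc w) - w)]
  have h5 : γ * P.c * P.s ≤ P.c * P.s / 1000 := by
    have : γ * (P.c * P.s) ≤ 1 / 1000 * (P.c * P.s) := by gcongr; exact S.γle
    linarith
  refine (Rb_sub hb _ _).trans ?_
  have h6 : γ * (6 * ‖w - w'‖ + γ * P.c * P.s) ≤ γ * (6 * (P.c * P.s / 500) + P.c * P.s / 1000) := by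
    gcongr
  have h7 : 14 * γ * ‖c2 P (P.anc w) - c2 P (P.anc w')‖
      ≤ 14 * γ * (P.c * P.s / 500 + 2 * (P.c * P.s / 1000)) := by
    gcongr; linarith
  have h8 : 0 < γ * P.c * P.s := by have := S.ok.cpos; have := S.ok.spos; positivity
  nlinarith

theorem Rb_shallow {z : X} (hz : dist z (P.anc (c2 P z)) ≤ P.c * P.s / 4) {w : R2}
    (hw : ‖w‖ ≤ P.s) (h : ‖w - c2 P z‖ ≤ P.c * P.s / 500) :
    ‖R G P b (P.anc w) - R G P b z‖ ≤ γ * P.c * P.s := by
  have hcs : 0 < P.c * P.s := mul_pos S.ok.cpos S.ok.spos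
  have hγ := S.γpos
  have h0 : ‖c2 P z‖ ≤ P.s := norm_cm_le S.ok.spos.le _
  have h1 := S.Rb_anc hb hw h0 h
  rw [dist_comm] at hz
  have h2 := S.R_geo (S.from_anc h0 hz)
  have h3 := Rb_sub (G := G) hb (P.anc (c2 P z)) z
  have h4 := S.anc_c2 h0
  have h5 : γ * P.c * P.s ≤ P.c * P.s / 1000 := by
    have : γ * (P.c * P.s) ≤ 1 / 1000 * (P.c * P.s) := by gcongr; exact S.γle
    linarith
  have h6 : γ * dist (P.anc (c2 P z)) z ≤ γ * (P.c * P.s / 4) := by gcongr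
  have h7 : 14 * γ * ‖c2 P (P.anc (c2 P z)) - c2 P z‖ ≤ 14 * γ * (P.c * P.s / 1000) := by
    gcongr; linarith
  have h8 : 0 < γ * P.c * P.s := by have := S.ok.cpos; have := S.ok.spos; positivity
  have h9 := norm_sub_le_norm_sub_add_norm_sub (R G P b (P.anc w)) (R G P b (P.anc (c2 P z)))
    (R G P b z)
  nlinarith

end Setup

end Pool.Agent.MP_7f5071_gt.CR
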